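import Pool.Agent.H7.CP.Targets
import Pool.Agent.H68.HE.LD

/-!
# MP_e37c09_lc: row HLD of the board `cap_modules`: definability of the class of `(T, g)`
-/

open Ordinal Cardinal Order Set
open scoped ZFSet

universe u

namespace Pool.Agent.H1.CP.HLD

open _root_.HD Pool.Agent.H20.HD9.CD Pool.Agent.H68.HE.LD

section

variable {en : Ordinal.{u} → ZFSet.{u}} {t : Ordinal.{u} → Ordinal.{u} → Ordinal.{u}}
  {X : Set Ordinal.{u}} {H : Ordinal.{u} → Set Ordinal.{u} → Prop}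

/-- `LNh` depends only on the parts below `ν` -/
theorem LNh_congr {ν : Ordinal.{u}} {T T' : Set Ordinal.{u}} {g g' : Ordinal.{u} → Ordinal.{u}}
    (hT : ∀ a < ν, (a ∈ T ↔ a ∈ T')) (hg : ∀ a < ν, g a = g' a) (h : LNh en t X H ν T g) :
    LNh en t X H ν T' g' := by
  constructor
  · exact LN_congr hT hg h.ln
  · intro z i hi hz'
    refine h.co z i hi ((Pos.congr fun b hb => ?_).1 hz')
    show (b ∈ T' ∧ ∃ j < i, ¬ (H ν (E2 en z j) ↔ H (g' b) (E2 en z j))) ↔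
      (b ∈ T ∧ ∃ j < i, ¬ (H ν (E2 en z j) ↔ H (g b) (E2 en z j)))
    rw [hT b hb, hg b hb]

theorem dm_HE (hen : EN en) (hH : HR H) (n z j : ℕ) :
    DM.{u} fun _ w => H (w n) (E2 en (w z) (w j)) := by
  refine DM.of_do (hH.dfn (fun a w => a ∈ E2 en (w z) (w j)) ?_ n)
  exact (All.ea en hen).2.1.ren (fun m => if m = 0 then 0 else if m = 1 then j + 1 else z + 1)

theorem dm_LNh (hen : EN en) (ht : Prf t) (hX : DS X) (hH : HR H) (p q i : ℕ) :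
    DM.{u} fun s w => LNh en t X H (w i) {a | a.toZFSet ∈ s p} (hz (s q)) := by
  have h2 : DM.{u} fun s w => ∀ z, ∀ l, l < w i → ¬ Pos om (w i) {γ | γ.toZFSet ∈ s p ∧
      ∃ j, j < l ∧ ¬ (H (w i) (E2 en z j) ↔ H (hz (s q) γ) (E2 en z j))} := by
    refine DM.allO (R := fun z s w => ∀ l, l < w i → ¬ Pos om (w i) {γ | γ.toZFSet ∈ s p ∧
      ∃ j, j < l ∧ ¬ (H (w i) (E2 en z j) ↔ H (hz (s q) γ) (E2 en z j))}) ?_
    refine DM.allO (R := fun l s w => l < w (i + 1) → ¬ Pos om (w (i + 1)) {γ |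
      γ.toZFSet ∈ s p ∧ ∃ j, j < l ∧
        ¬ (H (w (i + 1)) (E2 en (w 0) j) ↔ H (hz (s q) γ) (E2 en (w 0) j))}) ?_
    refine (DM.of_do (DO.lt 0 (i + 2))).imp (DM.not ?_)
    refine DM.posc (X := fun γ s w => γ.toZFSet ∈ s p ∧ ∃ j, j < w 0 ∧
      ¬ (H (w (i + 2)) (E2 en (w 1) j) ↔ H (hz (s q) γ) (E2 en (w 1) j))) ?_ om (i + 2)
    refine (DM.smem p 0).and ?_
    refine DM.exO (R := fun j s w => j < w 1 ∧
      ¬ (H (w (i + 3)) (E2 en (w 2) j) ↔ H (hz (s q) (w 0)) (E2 en (w 2) j))) ?_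
    refine (DM.of_do (DO.lt 0 2)).and (DM.not ((dm_HE hen hH (i + 4) 3 0).iff ?_))
    exact DM.subst (f := fun s w => hz (s q) (w 1)) (R := fun b _ w => H b (E2 en (w 3) (w 0)))
      (df_hz q 1) (dm_HE hen hH 0 4 1)
  exact ((dm_LN hen ht hX p q i).and h2).congr fun s w =>
    ⟨fun h => ⟨h.ln, h.co⟩, fun h => ⟨h.1, h.2⟩⟩

/-- minimality at the level of sets -/
def LMhz (en : Ordinal.{u} → ZFSet.{u}) (t : Ordinal.{u} → Ordinal.{u} → Ordinal.{u})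
    (X : Set Ordinal.{u}) (H : Ordinal.{u} → Set Ordinal.{u} → Prop) (ν : Ordinal.{u})
    (s z : ZFSet.{u}) : Prop :=
  LNh en t X H ν {a | a.toZFSet ∈ s} (hz z) ∧ ∀ s' z' : ZFSet.{u},
    LNh en t X H ν {a | a.toZFSet ∈ s'} (hz z') →
      ¬ Pos om ν {γ | γ.toZFSet ∈ s' ∧ (¬ γ.toZFSet ∈ s ∨ hz z' γ < hz z γ)}

theorem dm_LMhz (hen : EN en) (ht : Prf t) (hX : DS X) (hH : HR H) (p q i : ℕ) :
    DM.{u} fun s w => LMhz en t X H (w i) (s p) (s q) := by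
  refine (dm_LNh hen ht hX hH p q i).and ?_
  refine DM.allS (R := fun s' s w => ∀ z' : ZFSet.{u},
    LNh en t X H (w i) {a | a.toZFSet ∈ s'} (hz z') →
      ¬ Pos om (w i) {γ | γ.toZFSet ∈ s' ∧ (¬ γ.toZFSet ∈ s p ∨ hz z' γ < hz (s q) γ)}) ?_
  refine DM.allS (R := fun z' s w =>
    LNh en t X H (w i) {a | a.toZFSet ∈ s 0} (hz z') →
      ¬ Pos om (w i) {γ | γ.toZFSet ∈ s 0 ∧
        (¬ γ.toZFSet ∈ s (p + 1) ∨ hz z' γ < hz (s (q + 1)) γ)}) ?_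
  refine (dm_LNh hen ht hX hH 1 0 i).imp (DM.not ?_)
  exact DM.posc (X := fun γ s _ => γ.toZFSet ∈ s 1 ∧
    (¬ γ.toZFSet ∈ s (p + 2) ∨ hz (s 0) γ < hz (s (q + 2)) γ))
    ((DM.smem 1 0).and ((DM.smem (p + 2) 0).not.or (DM.lt (df_hz 0 0) (df_hz (q + 2) 0)))) om i

theorem LMh_iff {ν : Ordinal.{u}} {T : Set Ordinal.{u}} {g : Ordinal.{u} → Ordinal.{u}}
    {s z : ZFSet.{u}} (hs : ∀ a < ν, (a.toZFSet ∈ s ↔ a ∈ T)) (hg : ∀ a < ν, hz z a = g a) :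
    LMh en t X H ν T g ↔ LMhz en t X H ν s z := by
  have hN : LNh en t X H ν T g ↔ LNh en t X H ν {a | a.toZFSet ∈ s} (hz z) :=
    ⟨LNh_congr (fun a ha => (hs a ha).symm) (fun a ha => (hg a ha).symm), LNh_congr hs hg⟩
  constructor
  · rintro ⟨h1, h2⟩
    refine ⟨hN.1 h1, fun s' z' h3 h4 => h2 _ _ h3 ((Pos.congr fun b hb => ?_).1 h4)⟩
    show (b.toZFSet ∈ s' ∧ (¬ b.toZFSet ∈ s ∨ hz z' b < hz z b)) ↔
      (b.toZFSet ∈ s' ∧ (b ∉ T ∨ hz z' b < g b))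
    rw [hs b hb, hg b hb]
  · rintro ⟨h1, h2⟩
    refine ⟨hN.2 h1, fun T' g' h3 h4 => ?_⟩
    obtain ⟨z', hz'⟩ := exists_hz ν g'
    have hs' : ∀ b < ν, (b ∈ T' ↔ b.toZFSet ∈ os ν T') := fun b hb => by
      rw [ord_mem_os]
      exact ⟨fun h => ⟨hb, h⟩, fun h => h.2⟩
    refine h2 (os ν T') z' (LNh_congr hs' (fun a ha => (hz' a ha).symm) h3)
      ((Pos.congr fun b hb => ?_).1 h4)
    show (b ∈ T' ∧ (b ∉ T ∨ g' b < g b)) ↔
      (b.toZFSet ∈ os ν T' ∧ (¬ b.toZFSet ∈ s ∨ hz z' b < hz z b))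
    rw [hs b hb, hg b hb, hz' b hb, hs' b hb]

end

/-- Row HLD -/
theorem X : T_HLD.{u} := by
  intro en hen t X H ht hX hH Y hY i
  have h1 : DM.{u} fun s w => LMhz en t X H (w i) (s 1) (s 0) ∧
      Pos om (w i) {γ | γ.toZFSet ∈ s 1 ∧ Y γ (hz (s 0) γ) w} := by
    refine (dm_LMhz hen ht hX hH 1 0 i).and ?_
    refine DM.posc (X := fun γ s w => γ.toZFSet ∈ s 1 ∧ Y γ (hz (s 0) γ) w)
      ((DM.smem 1 0).and ?_) om i
    refine DM.subst (f := fun s w => hz (s 0) (w 0))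
      (R := fun b s w => Y (w 0) b (fun n => w (n + 1))) (df_hz 0 0) ?_
    refine (DM.of_do (hY.ren (fun n => if n = 0 then 1 else if n = 1 then 0 else n))).congr
      fun s w => ?_
    simp
  have h2 : DM.{u} fun _ w => ∃ s z : ZFSet.{u}, LMhz en t X H (w i) s z ∧
      Pos om (w i) {γ | γ.toZFSet ∈ s ∧ Y γ (hz z γ) w} :=
    DM.exS (R := fun s _ w => ∃ z : ZFSet.{u}, LMhz en t X H (w i) s z ∧
      Pos om (w i) {γ | γ.toZFSet ∈ s ∧ Y γ (hz z γ) w})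
      (DM.exS (R := fun z s w => LMhz en t X H (w i) (s 0) z ∧
        Pos om (w i) {γ | γ.toZFSet ∈ s 0 ∧ Y γ (hz z γ) w}) h1)
  refine (DM.do h2).congr fun w => ?_
  constructor
  · rintro ⟨T, g, h3, h4⟩
    obtain ⟨z, hz'⟩ := exists_hz (w i) g
    have hs : ∀ b < w i, (b.toZFSet ∈ os (w i) T ↔ b ∈ T) := fun b hb => by
      rw [ord_mem_os]
      exact ⟨fun h => h.2, fun h => ⟨hb, h⟩⟩
    refine ⟨os (w i) T, z, (LMh_iff hs hz').1 h3, (Pos.congr fun b hb => ?_).1 h4⟩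
    show (b ∈ T ∧ Y b (g b) w) ↔ (b.toZFSet ∈ os (w i) T ∧ Y b (hz z b) w)
    rw [hs b hb, hz' b hb]
  · rintro ⟨s, z, h3, h4⟩
    exact ⟨{a | a.toZFSet ∈ s}, hz z, (LMh_iff (fun _ _ => Iff.rfl) (fun _ _ => rfl)).2 h3, h4⟩

end Pool.Agent.H1.CP.HLD
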