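import Pool.Agent.H7.CP.Targets2

/-!
# MP_e37c09_lc: row RKU of the board `cap2_modules`: the Mitchell rank of a measure concentrating on
points with many measures
-/

open Ordinal Cardinal Order Set
open scoped ZFSet

universe u

namespace Pool.Agent.H1.CP.RKU

open _root_.HD Pool.Agent.H7.HDA

/-- the ordinals below the successor in HOD are images of the power set in HOD -/
theorem pon {b θ : Ordinal.{u}} (hθ : θ < hs b) : PonHOD b θ := by
  have hex : ∃ π : Ordinal.{u} → Ordinal.{u}, (DR fun a b => b = π a) ∧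
      ∀ z < θ, ∃ j < b, z = π j := by
    rcases (zero_le (a := θ)).eq_or_lt with h0 | h0
    · refine ⟨fun _ => 0, DO.eqc 1 0, fun z hz => ?_⟩
      rw [← h0] at hz
      exact absurd hz not_lt_zero
    · obtain ⟨π, h1, -, h3⟩ := All.hsd.2.2 b θ h0 hθ
      exact ⟨π, h1, h3⟩
  obtain ⟨π, hπ, h3⟩ := hex
  refine ⟨rs b θ fun a c => c = π a, hod_rs hπ b θ, fun x c c' h h' => ?_, fun z hz => ?_⟩
  · obtain ⟨a, -, d, -, hd, he⟩ := mem_rs.1 h
    obtain ⟨a', -, d', -, hd', he'⟩ := mem_rs.1 h'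
    obtain ⟨e1, e2⟩ := ZFSet.pair_injective he
    obtain ⟨e3, e4⟩ := ZFSet.pair_injective he'
    have ha : a = a' := toZFSet_injective (e1.symm.trans e3)
    rw [toZFSet_injective e2, toZFSet_injective e4, hd, hd', ha]
  · obtain ⟨j, hj, hzj⟩ := h3 z hz
    refine ⟨j.toZFSet, HOD.ordinal j, fun y hy => ?_, pair_mem_rs.2 ⟨hj, hz, hzj⟩⟩
    obtain ⟨a, ha, rfl⟩ := mem_toZFSet_iff.1 hy
    exact toZFSet_mem_toZFSet_iff.2 (ha.trans hj)

theorem X : T_RKU.{u} := by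
  intro κ W Y hW hY hYW hYM
  rw [MGe]
  refine ⟨(All.hmi _ _).2 hW, ?_⟩
  rintro ⟨ζ, hζ⟩
  have hex : ∃ (π : Ordinal.{u} → Ordinal.{u}) (a : Ordinal.{u}), (DR fun a b => b = π a) ∧
      Rk π κ a = ζ := by
    rcases (zero_le (a := ζ)).eq_or_lt with h0 | h0
    · refine ⟨fun _ => 0, 0, DO.eqc 1 0, ?_⟩
      rw [← h0]
      by_contra hne
      have h1 : 0 < Rk (fun _ => 0) κ 0 := pos_iff_ne_zero.2 hne
      obtain ⟨j, -, hj, -⟩ := ((All.rkk (fun _ => 0)).1 κ 0 0).1 h1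
      exact absurd hj (lt_irrefl _)
    · obtain ⟨π, h1, h2, h3⟩ := All.hsd.2.2 κ ζ h0 hζ
      exact ⟨π, ζ, h1, (All.rkk π).2.2 κ ζ h2 h3⟩
  obtain ⟨π, a, hπ, rfl⟩ := hex
  refine All.upp π hπ a κ W hW ?_
  have hD : DS {b | ∃ U, MGe b (Rk π b a) U} := by
    refine DO.sub (R := fun p w => ∃ U, MGe (w 0) (Rk π (w 0) p) U) a ?_
    exact DO.s2 (X := fun a b => ∃ U, MGe a (Rk π a b) U) (PB.do_rk All.rkk hπ) 1 0
  have hgt : DS {b : Ordinal.{u} | 0 < b} := DO.gtc 0 0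
  have hYg : DS (Y ∩ {b : Ordinal.{u} | 0 < b}) := DO.and hY hgt
  refine hW.up _ _ hYg hD (hW.int _ _ hY hgt hYW (hW.gt 0 hW.lim.bot_lt)) fun b _ hb => ?_
  exact hYM b hb.1 _ (pon (((All.rkk π).2.1 hπ).2 b a hb.2))

end Pool.Agent.H1.CP.RKU
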